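import Mathlib
import Pool.Agent.X329.Inv.Main

/-!
# The proportions of involutions of finite groups are not dense in `[0, 1/2]`

For a finite group `G` let `i(G)` be the number of elements of order `2` divided by `|G|`.  The
closure of the set of all numbers `i(G)` is countable.  Hence every interval `[a, b]` with `a < b`,
in particular `[0, 1/2]`, contains an open subinterval without any `i(G)`.

Outline.  Let `i(G) ≥ δ > 0`.  For involutions `x`, `y` the element `x` inverts `z = x y`, so at
least `δ² |G|²` pairs of elements of `G` commute.  By P. M. Neumann's theorem (starting library,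
`Pool.Agent.Y392.Neu`) there is a normal subgroup `M` of bounded index such that `A = [M, M]` is
central in `M` and has bounded order.  In a coset `g M` with `g² = 1` the solutions of `x² = 1` are
the `g m` with `g m g⁻¹ m = 1`; these `m` lie in the subgroup `L` of the `m` with `g m g⁻¹ m ∈ A`,
and `Ψ(m) = g m g⁻¹ m` is a quadratic map `L → A`.  So `i(G)` is, up to `1 / |G|`, a sum of a bounded
number of terms `(1 / q) (1 / k) z`, `q` bounded, `k` a positive integer, `z` the average of `χ ∘ Ψ`
over `L` for a character `χ` of `A`.  Either `z = 0` or there is a positive integer `r` such that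
`|z| ≤ 1 / √r` and `z` is an average of `r` roots of unity of bounded order.  The set of all such
`z` is compact and countable, and so is the set of all sums of a bounded number of the terms.
-/

set_option autoImplicit false

namespace Pool.Agent.Results.MP_32cd73_al.ClosureCountable

universe u

/-- the proportion `i(G)` of the elements of order `2` of a finite group `G` -/
noncomputable def involutionProportion (G : Type u) [Group G] : ℝ :=
  (Nat.card {x : G // orderOf x = 2} : ℝ) / Nat.card G

/-- the set of the numbers `i(G)`, `G` a finite group -/
def proportions : Set ℝ :=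
  {t | ∃ (G : Type u) (_ : Group G) (_ : Finite G), t = involutionProportion G}

theorem subset_zero : proportions.{u} ⊆ Pool.Agent.X329.Inv.propSet := by
  rintro t ⟨G, i1, i2, rfl⟩
  have : Small.{0} G := Countable.toSmall G
  let m : Shrink.{0} G ≃* G := Shrink.mulEquiv
  have hfin : Finite (Shrink.{0} G) := Finite.of_equiv G m.symm.toEquiv
  refine ⟨Shrink.{0} G, inferInstance, hfin, ?_⟩
  unfold involutionProportion Pool.Agent.X329.Inv.invProp
  have h1 : Nat.card G = Nat.card (Shrink.{0} G) := Nat.card_congr m.symm.toEquiv
  have h2 : Nat.card {x : G // orderOf x = 2} = Nat.card {x : Shrink.{0} G // orderOf x = 2} := by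
    refine Nat.card_congr (m.symm.toEquiv.subtypeEquiv fun x => ?_)
    have h : orderOf (m.symm x) = orderOf x :=
      orderOf_injective m.symm.toMonoidHom m.symm.injective x
    show orderOf x = 2 ↔ orderOf (m.symm x) = 2
    rw [h]
  rw [h1, h2]

theorem zero_subset : Pool.Agent.X329.Inv.propSet ⊆ proportions.{0} := fun _ h => h

/-- The set of the proportions of involutions is not dense in `[0, 1/2]`; every interval contains a
point at a positive distance from it; its closure is countable. -/
theorem result :
    (∃ t ∈ Set.Icc (0 : ℝ) (1 / 2), ∃ ε > 0, ∀ (G : Type u) [Group G] [Finite G],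
      ε ≤ |involutionProportion G - t|) ∧
    (∀ a b : ℝ, a < b → ∃ t ∈ Set.Icc a b, ∃ ε > 0, ∀ (G : Type u) [Group G] [Finite G],
      ε ≤ |involutionProportion G - t|) ∧
    (closure proportions.{u}).Countable := by
  have hc : (closure proportions.{u}).Countable :=
    Pool.Agent.X329.Inv.closure_countable.mono (closure_mono subset_zero)
  have hgap : ∀ a b : ℝ, a < b → ∃ t ∈ Set.Icc a b, ∃ ε > 0, ∀ (G : Type u) [Group G] [Finite G],
      ε ≤ |involutionProportion G - t| := by
    intro a b hab
    by_contra hcon
    push Not at hcon
    have h1 : Set.Icc a b ⊆ closure proportions.{u} := by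
      intro t ht
      rw [Metric.mem_closure_iff]
      intro ε hε
      obtain ⟨G, i1, i2, hG⟩ := hcon t ht ε hε
      refine ⟨involutionProportion G, ⟨G, i1, i2, rfl⟩, ?_⟩
      rw [dist_comm, Real.dist_eq]
      exact hG
    have h4 := (Cardinal.le_aleph0_iff_set_countable).2 (hc.mono h1)
    rw [Cardinal.mk_Icc_real hab] at h4
    exact absurd h4 (not_le.2 Cardinal.aleph0_lt_continuum)
  exact ⟨hgap 0 (1 / 2) (by norm_num), hgap, hc⟩

end Pool.Agent.Results.MP_32cd73_al.ClosureCountable
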